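import Pool.Agent.H57.CP.Targets

/-!
# MP_397744_co: module EG (chirality)
-/

namespace Pool.Agent.H57.CP

namespace EGaux

variable {K : Geo}

lemma A0.symm' {X Y : Fg} (h : A0 K X Y) : A0 K Y X :=
  ⟨h.2.1, h.1, h.2.2.1.symm, h.2.2.2.1.symm, h.2.2.2.2.symm⟩

lemma A1.symm' {X Y : Fg} (h : A1 K X Y) : A1 K Y X :=
  ⟨h.2.1, h.1, h.2.2.1.symm, h.2.2.2.1.symm, h.2.2.2.2.symm⟩

lemma A2.symm' {X Y : Fg} (h : A2 K X Y) : A2 K Y X :=
  ⟨h.2.1, h.1, h.2.2.1.symm, h.2.2.2.1.symm, h.2.2.2.2.symm⟩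

end EGaux

open EGaux in
theorem eg (hA : T_FLA) (hB : T_FLB) (hC : T_FLC) (hD : T_FLD) (hS : T_SYG) (hNB : T_NCB)
    (hNC : T_NCC) : T_EG := by
  intro K Φ Φ0 Φ1 Φ2 Φ02 Φ12 S T geo r noR rig
  obtain ⟨s1, smul, sinv, amul, aone⟩ := hS K
  obtain ⟨n1, n2, n3, n4, n5⟩ := hNB K Φ Φ0 Φ1 Φ2 Φ02 Φ12 S T geo r
  have u0 : ∀ {X Y Y'}, A0 K X Y → A0 K X Y' → Y = Y' := fun h h' =>
    (hA K geo _ h.1).1.unique h h'
  have u1 : ∀ {X Y Y'}, A1 K X Y → A1 K X Y' → Y = Y' := fun h h' =>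
    (hA K geo _ h.1).2.1.unique h h'
  have u2 : ∀ {X Y Y'}, A2 K X Y → A2 K X Y' → Y = Y' := fun h h' =>
    (hA K geo _ h.1).2.2.unique h h'
  have m0 : ∀ {g X Y}, Sy K g → A0 K X Y → A0 K (act g X) (act g Y) := fun hg h =>
    (hB K _ hg _ _).2.1 h
  have m1 : ∀ {g X Y}, Sy K g → A1 K X Y → A1 K (act g X) (act g Y) := fun hg h =>
    (hB K _ hg _ _).2.2.1 h
  have m2 : ∀ {g X Y}, Sy K g → A2 K X Y → A2 K (act g X) (act g Y) := fun hg h =>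
    (hB K _ hg _ _).2.2.2 h
  have sS' : Sy K S⁻¹ := sinv _ r.sS
  -- two symmetries which agree on a flag are equal
  have heq : ∀ g h : Equiv.Perm H3, Sy K g → Sy K h → act g Φ = act h Φ → g = h := by
    intro g h hg hh he
    have h1 := hD K geo g h hg hh Φ r.a0.1 he
    have h2 : h⁻¹ * g = 1 := by
      refine rig _ (smul _ _ (sinv _ hh) hg).iso fun y hy => ?_
      rw [Equiv.Perm.mul_apply, h1 y hy]
      simp
    exact (inv_mul_eq_one.mp h2).symm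
  have claim : ¬ Eqv K Φ Φ2 := by
    rintro ⟨R, hR, e⟩
    have e1 : act R Φ1 = act S⁻¹ Φ := u1 (e ▸ m1 hR r.a1) (A1.symm' n4)
    have e12 : act R Φ12 = act S⁻¹ Φ2 := u2 (e1 ▸ m2 hR r.a12) (m2 sS' r.a2)
    have hRS : R * S = S⁻¹ * R := by
      refine heq _ _ (smul _ _ hR r.sS) (smul _ _ sS' hR) ?_
      rw [amul, amul, r.eS, e, e12]
    have e0 : act R Φ0 = Φ02 := u0 (e ▸ m0 hR r.a0) n3
    have e02' : A2 K Φ02 (act R Φ02) := by
      have := m2 hR r.a02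
      rwa [e0] at this
    have e02 : act R Φ02 = Φ0 := u2 e02' (A2.symm' r.a02)
    have hRT : R * T = T * R := by
      refine heq _ _ (smul _ _ hR r.sT) (smul _ _ r.sT hR) ?_
      rw [amul, amul, r.eT, e, e02, n1]
    exact noR ⟨R, hR.iso, e, hRS, hRT⟩
  have erefl : ∀ X, Eqv K X X := fun X => ⟨1, s1, aone X⟩
  have esymm : ∀ {X Y}, Eqv K X Y → Eqv K Y X := by
    rintro X Y ⟨g, hg, rfl⟩
    exact ⟨g⁻¹, sinv _ hg, by rw [← amul, inv_mul_cancel, aone]⟩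
  have etrans : ∀ {X Y Z}, Eqv K X Y → Eqv K Y Z → Eqv K X Z := by
    rintro X Y Z ⟨g, hg, rfl⟩ ⟨h, hh, rfl⟩
    exact ⟨h * g, smul _ _ hh hg, amul _ _ _⟩
  have hGr : ∀ g ∈ Gr S T, Sy K g := by
    intro g hg
    refine Subgroup.closure_induction (p := fun g _ => Sy K g) ?_ s1
      (fun x y _ _ hx hy => smul _ _ hx hy) (fun x _ hx => sinv _ hx) hg
    rintro x (rfl | rfl)
    · exact r.sS
    · exact r.sT
  have hcl : ∀ X, Fl K X → Eqv K Φ X ∨ Eqv K Φ2 X := by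
    intro X hX
    obtain ⟨g, hg, h | h⟩ := hNC K Φ Φ0 Φ1 Φ2 Φ02 Φ12 S T geo r X hX
    · exact Or.inl ⟨g, hGr g hg, h.symm⟩
    · exact Or.inr ⟨g, hGr g hg, h.symm⟩
  refine ⟨⟨Φ, Φ2, r.a2.1, r.a2.2.1, claim⟩, ?_, ?_⟩
  · intro X Y Z hX hY hZ
    rcases hcl X hX with hx | hx <;> rcases hcl Y hY with hy | hy <;>
      rcases hcl Z hZ with hz | hz
    · exact Or.inl (etrans (esymm hx) hy)
    · exact Or.inl (etrans (esymm hx) hy)
    · exact Or.inr (Or.inr (etrans (esymm hx) hz))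
    · exact Or.inr (Or.inl (etrans (esymm hy) hz))
    · exact Or.inr (Or.inl (etrans (esymm hy) hz))
    · exact Or.inr (Or.inr (etrans (esymm hx) hz))
    · exact Or.inl (etrans (esymm hx) hy)
    · exact Or.inl (etrans (esymm hx) hy)
  · intro X Y hX hY hadj hXY
    have hadj' : A0 K X Y ∨ A1 K X Y ∨ A2 K X Y := by
      rcases hadj with h | h | h
      · exact Or.inl ⟨hX, hY, h⟩
      · exact Or.inr (Or.inl ⟨hX, hY, h⟩)
      · exact Or.inr (Or.inr ⟨hX, hY, h⟩)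
    have N1 : Eqv K Φ X → Eqv K Φ2 Y := by
      rintro ⟨g, hg, rfl⟩
      rcases hadj' with h | h | h
      · rw [u0 h (m0 hg r.a0), ← n1, ← amul]
        exact ⟨g * T, smul _ _ hg r.sT, rfl⟩
      · rw [u1 h (m1 hg r.a1), ← n2, ← amul]
        exact ⟨g * S, smul _ _ hg r.sS, rfl⟩
      · rw [u2 h (m2 hg r.a2)]
        exact ⟨g, hg, rfl⟩
    have N2 : Eqv K Φ2 X → Eqv K Φ Y := by
      rintro ⟨g, hg, rfl⟩
      rcases hadj' with h | h | h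
      · rw [u0 h (m0 hg n3), ← r.eT, ← amul]
        exact ⟨g * T, smul _ _ hg r.sT, rfl⟩
      · rw [u1 h (m1 hg (A1.symm' n4)), ← amul]
        exact ⟨g * S⁻¹, smul _ _ hg sS', rfl⟩
      · rw [u2 h (m2 hg (A2.symm' r.a2))]
        exact ⟨g, hg, rfl⟩
    rcases hcl X hX with hx | hx
    · exact claim (etrans (etrans hx hXY) (esymm (N1 hx)))
    · exact claim (etrans (N2 hx) (esymm (etrans hx hXY)))

end Pool.Agent.H57.CP
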