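import Pool.Agent.H57.CP.Targets

/-!
# MP_397744_co: module FNT (finiteness)
-/

namespace Pool.Agent.H57.CP

namespace FNTaux

/-- standard basis -/
def e (j : Fin 4) : V4 := Pi.single j 1

lemma expand (x : V4) : x = x 0 • e 0 + x 1 • e 1 + x 2 • e 2 + x 3 • e 3 := by
  ext i
  fin_cases i <;> simp [e]

lemma map_expand (G : V4 →ₗ[ℝ] V4) (x : V4) (l : Fin 4) :
    G x l = x 0 * G (e 0) l + x 1 * G (e 1) l + x 2 * G (e 2) l + x 3 * G (e 3) l := by
  conv_lhs => rw [expand x]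
  simp only [map_add, map_smul, Pi.add_apply, Pi.smul_apply, smul_eq_mul]

lemma o_eq : o.1 = e 3 := by
  ext i
  fin_cases i <;> simp [o, e]

lemma entry {G G' : V4 →ₗ[ℝ] V4} (hG : ∀ x y, mk (G x) (G y) = mk x y)
    (hG' : ∀ x y, mk (G' x) (G' y) = mk x y) (hGG : ∀ x y, mk (G x) y = mk x (G' y))
    (i j : Fin 4) : (G (e j) i) ^ 2 ≤ (G (e 3) 3) ^ 2 := by
  have c0 := hG (e 0) (e 0)
  have c1 := hG (e 1) (e 1)
  have c2 := hG (e 2) (e 2)
  have c3 := hG (e 3) (e 3)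
  have r := hG' (e 3) (e 3)
  have t0 := hGG (e 0) (e 3)
  have t1 := hGG (e 1) (e 3)
  have t2 := hGG (e 2) (e 3)
  have t3 := hGG (e 3) (e 3)
  simp only [mk, e] at c0 c1 c2 c3 r t0 t1 t2 t3
  simp at c0 c1 c2 c3 r t0 t1 t2 t3
  simp only [e]
  set p := G (Pi.single 0 1)
  set q := G (Pi.single 1 1)
  set s := G (Pi.single 2 1)
  set t := G (Pi.single 3 1)
  set z := G' (Pi.single 3 1)
  have t0' : z 0 = -p 3 := by linarith
  have t1' : z 1 = -q 3 := by linarith
  have t2' : z 2 = -s 3 := by linarith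
  rw [← t3, t0', t1', t2'] at r
  have hp := fun i => mul_self_nonneg (p i)
  have hq := fun i => mul_self_nonneg (q i)
  have hs := fun i => mul_self_nonneg (s i)
  have ht := fun i => mul_self_nonneg (t i)
  fin_cases j <;> fin_cases i <;>
    simp only [Fin.zero_eta, Fin.mk_one, Fin.reduceFinMk, pow_two] <;>
    linarith [hp 0, hp 1, hp 2, hp 3, hq 0, hq 1, hq 2, hq 3, hs 0, hs 1, hs 2, hs 3, ht 0, ht 1,
      ht 2]

lemma bound {G : V4 →ₗ[ℝ] V4} {M D : ℝ} (_hM : 0 ≤ M) (h : ∀ i j, |G (e j) i| ≤ M) {z : V4}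
    (hz : ∀ i, |z i| ≤ D) (l : Fin 4) : |G z l| ≤ 4 * (D * M) := by
  have hD : 0 ≤ D := (abs_nonneg _).trans (hz 0)
  rw [map_expand]
  have k : ∀ j, |z j * G (e j) l| ≤ D * M := fun j => by
    rw [abs_mul]; exact mul_le_mul (hz j) (h l j) (abs_nonneg _) hD
  calc |z 0 * G (e 0) l + z 1 * G (e 1) l + z 2 * G (e 2) l + z 3 * G (e 3) l|
      ≤ |z 0 * G (e 0) l| + |z 1 * G (e 1) l| + |z 2 * G (e 2) l| + |z 3 * G (e 3) l| := by
        refine (abs_add_le _ _).trans (add_le_add_left ?_ _)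
        refine (abs_add_le _ _).trans (add_le_add_left ?_ _)
        exact abs_add_le _ _
    _ ≤ 4 * (D * M) := by linarith [k 0, k 1, k 2, k 3]

end FNTaux

open FNTaux in
theorem fnt (h1 : T_DSC) (h2 : T_SGL) (_h3 : T_ROO) : T_FNT := by
  intro a b σ hyp hσ M
  obtain ⟨ε, hε, hdsc⟩ := h1 a b σ hyp hσ
  have hL := fun w => (h2 a b σ hyp hσ w).1
  have hinv : ∀ w x y, mk (σ w x) y = mk x (σ w⁻¹ y) := by
    intro w x y
    have h := (hL w).1 x (σ w⁻¹ y)
    rw [← h, ← Module.End.mul_apply, ← map_mul, mul_inv_cancel, map_one]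
    rfl
  obtain ⟨M', hM'⟩ : ∃ M' : ℝ, M' = max M 1 := ⟨_, rfl⟩
  have hM1 : 1 ≤ M' := by rw [hM']; exact le_max_right _ _
  have hMM : M ≤ M' := by rw [hM']; exact le_max_left _ _
  have hdd : ∀ w, mk o.1 (σ w o.1) = σ w (e 3) 3 := by
    intro w
    rw [o_eq]
    simp [mk, e]
  have hent : ∀ w, mk o.1 (σ w o.1) ≤ M → ∀ i j, |σ w (e j) i| ≤ M' := by
    intro w hw i j
    have h4 := entry (hL w).1 (hL w⁻¹).1 (hinv w) i j
    have h5 : 0 ≤ σ w (e 3) 3 := by
      have := (hL w).2 o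
      rw [o_eq] at this
      exact this.le
    have h6 := abs_le_of_sq_le_sq h4 h5
    have h7 : |σ w (e j) i| ≤ σ w (e 3) 3 := h6
    rw [hdd] at hw
    linarith
  -- a bound of the coordinates of the roots
  obtain ⟨B, hB1, hB⟩ : ∃ B : ℝ, 1 ≤ B ∧ ∀ i j, |al a b i j| ≤ B := by
    refine ⟨1 + ∑ i, ∑ j, |al a b i j|, ?_, fun i j => ?_⟩
    · have : 0 ≤ ∑ i, ∑ j, |al a b i j| :=
        Finset.sum_nonneg fun i _ => Finset.sum_nonneg fun j _ => abs_nonneg _
      linarith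
    · have e1 : |al a b i j| ≤ ∑ j, |al a b i j| :=
        Finset.single_le_sum (f := fun j => |al a b i j|) (fun j _ => abs_nonneg _)
          (Finset.mem_univ j)
      have e2 : ∑ j, |al a b i j| ≤ ∑ i, ∑ j, |al a b i j| :=
        Finset.single_le_sum (f := fun i => ∑ j, |al a b i j|)
          (fun i _ => Finset.sum_nonneg fun j _ => abs_nonneg _) (Finset.mem_univ i)
      linarith
  obtain ⟨η, hη, hηε⟩ : ∃ η : ℝ, 0 < η ∧ 4 * ((4 * (B * η)) * M') < ε := by
    refine ⟨ε / (32 * B * M'), by positivity, ?_⟩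
    have : 4 * ((4 * (B * (ε / (32 * B * M')))) * M') = ε / 2 := by
      field_simp; ring
    rw [this]; linarith
  let F : (cm a b).Group → (Fin 4 → Fin 4 → ℤ) := fun w i j => ⌊σ w (e j) i / η⌋
  refine Set.Finite.of_injOn (f := F)
    (t := Set.pi Set.univ fun _ => Set.pi Set.univ fun _ => Set.Icc ⌊-M' / η⌋ ⌊M' / η⌋)
    ?_ ?_ (Set.Finite.pi fun _ => Set.Finite.pi fun _ => Set.finite_Icc _ _)
  · intro w hw i _ j _
    have h4 := abs_le.mp (hent w hw i j)
    refine ⟨Int.floor_le_floor ?_, Int.floor_le_floor ?_⟩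
    · exact div_le_div_of_nonneg_right h4.1 hη.le
    · exact div_le_div_of_nonneg_right h4.2 hη.le
  · intro w hw w' hw' hF
    have hclose : ∀ i j, |σ w' (e j) i - σ w (e j) i| ≤ η := by
      intro i j
      have h4 : ⌊σ w (e j) i / η⌋ = ⌊σ w' (e j) i / η⌋ := congrFun (congrFun hF i) j
      have h5 := Int.abs_sub_lt_one_of_floor_eq_floor h4
      rw [← sub_div, abs_div, abs_of_pos hη, div_lt_one hη] at h5
      rw [abs_sub_comm]
      exact h5.le
    have hwinv : mk o.1 (σ w⁻¹ o.1) ≤ M := by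
      rw [← hinv]
      have : mk (σ w o.1) o.1 = mk o.1 (σ w o.1) := by simp only [mk]; ring
      rw [this]; exact hw
    have hu : w⁻¹ * w' = 1 := by
      refine hdsc _ fun i j => ?_
      have h6 : σ (w⁻¹ * w') (al a b i) - al a b i =
          σ w⁻¹ ((σ w' - σ w) (al a b i)) := by
        rw [LinearMap.sub_apply, map_sub, ← Module.End.mul_apply, ← Module.End.mul_apply,
          ← map_mul, ← map_mul, inv_mul_cancel, map_one]
        rfl
      have h7 : ∀ l, |(σ w' - σ w) (al a b i) l| ≤ 4 * (B * η) :=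
        fun l => bound hη.le (fun i' j' => hclose i' j') (hB i) l
      have h8 := bound (by linarith : (0 : ℝ) ≤ M') (hent _ hwinv) h7 j
      have h9 := congrFun h6 j
      rw [Pi.sub_apply] at h9
      rw [h9]
      exact lt_of_le_of_lt h8 hηε
    rw [inv_mul_eq_one] at hu
    exact hu

end Pool.Agent.H57.CP
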