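import Pool.Agent.H57.CP.Targets

/-!
# MP_397744_co: module LNK (permutations and block representation)
-/

namespace Pool.Agent.H57.CP

theorem lnk (_h : T_SPN) : T_LNK := by
  intro a b S T S₁ S₁' T₁ R hB hS hS' hT eS eT
  let rel : (cm a b).Group → Equiv.Perm H3 → Prop := fun w g =>
    ∀ x : H3, R w (x.1, 0) = ((g x).1, 0)
  have rel_one : rel 1 1 := fun x => by rw [map_one]; rfl
  have rel_mul : ∀ {w w' g g'}, rel w g → rel w' g' → rel (w * w') (g * g') := by
    intro w w' g g' h h' x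
    rw [map_mul, Module.End.mul_apply, h' x, h (g' x)]
    rfl
  have rel_inv : ∀ {w g}, rel w g → rel w⁻¹ g⁻¹ := by
    intro w g h x
    have h1 := h (g⁻¹ x)
    have h2 : g (g⁻¹ x) = x := by simp
    rw [h2] at h1
    have h3 : R w⁻¹ (R w ((g⁻¹ x).1, 0)) = ((g⁻¹ x).1, 0) := by
      rw [← Module.End.mul_apply, ← map_mul, inv_mul_cancel, map_one]
      rfl
    rw [h1] at h3
    exact h3
  have rel_pow : ∀ {w g}, rel w g → ∀ k : ℕ, rel (w ^ k) (g ^ k) := by
    intro w g h k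
    induction k with
    | zero => rw [pow_zero, pow_zero]; exact rel_one
    | succ k ih => rw [pow_succ, pow_succ]; exact rel_mul ih h
  have eSi : ∀ x : H3, S₁' x.1 = (S⁻¹ x).1 := by
    intro x
    have h1 : S₁ (S⁻¹ x).1 = x.1 := by
      rw [eS (S⁻¹ x)]; simp
    rw [← h1, ← Module.End.mul_apply, hS']
    rfl
  have r12 : rel (sm a b 1 * sm a b 2) S := by
    intro x
    rw [map_mul, Module.End.mul_apply, hB.r2, hB.r1, map_zero]
    exact Prod.ext (eS x) rfl
  have r02 : rel (sm a b 0 * sm a b 2) T := by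
    intro x
    rw [map_mul, Module.End.mul_apply, hB.r2, hB.r0, map_zero]
    exact Prod.ext (eT x) rfl
  have r01 : rel (sm a b 0 * sm a b 1) (T * S⁻¹) := by
    intro x
    rw [map_mul, Module.End.mul_apply, hB.r1, hB.r0, map_zero, map_zero, eSi x]
    exact Prod.ext (eT (S⁻¹ x)) rfl
  refine ⟨?_, ?_, ?_⟩
  · intro w hw
    refine Subgroup.closure_induction (p := fun w _ => ∃ g ∈ Gr S T, rel w g) ?_ ?_ ?_ ?_ hw
    · rintro x (rfl | rfl)
      · exact ⟨S, Subgroup.subset_closure (by simp), r12⟩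
      · exact ⟨T, Subgroup.subset_closure (by simp), r02⟩
    · exact ⟨1, one_mem _, rel_one⟩
    · rintro x y - - ⟨g, hg, h⟩ ⟨g', hg', h'⟩
      exact ⟨g * g', mul_mem hg hg', rel_mul h h'⟩
    · rintro x - ⟨g, hg, h⟩
      exact ⟨g⁻¹, inv_mem hg, rel_inv h⟩
  · intro g hg
    refine Subgroup.closure_induction (p := fun g _ => ∃ w ∈ Ev a b, rel w g) ?_ ?_ ?_ ?_ hg
    · rintro x (rfl | rfl)
      · exact ⟨sm a b 1 * sm a b 2, Subgroup.subset_closure (by simp), r12⟩
      · exact ⟨sm a b 0 * sm a b 2, Subgroup.subset_closure (by simp), r02⟩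
    · exact ⟨1, one_mem _, rel_one⟩
    · rintro x y - - ⟨w, hw, h⟩ ⟨w', hw', h'⟩
      exact ⟨w * w', mul_mem hw hw', rel_mul h h'⟩
    · rintro x - ⟨w, hw, h⟩
      exact ⟨w⁻¹, inv_mem hw, rel_inv h⟩
  · intro k x
    exact ⟨rel_pow r12 k x, rel_pow r01 k x⟩

end Pool.Agent.H57.CP
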