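import Pool.Agent.H57.CP.Targets

/-!
# MP_397744_co: module SZO (powers of the two rotations)
-/

namespace Pool.Agent.H57.CP

namespace SZOaux

lemma alt_even {M : Type} [Monoid M] (A B : M) (m : ℕ) : alt A B (2 * m) = (A * B) ^ m := by
  induction m with
  | zero => simp [alt]
  | succ m ih =>
    have h1 : ¬ Even (2 * m + 1) := by simp
    have h2 : Even (2 * m) := by simp
    show alt A B (2 * m + 1 + 1) = _
    simp only [alt, if_neg h1, if_pos h2]
    rw [ih, pow_succ', mul_assoc]

lemma pow_shift {M : Type} [Monoid M] (A B : M) (m : ℕ) :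
    A * (B * A) ^ m * B = (A * B) ^ (m + 1) := by
  induction m with
  | zero => simp
  | succ m ih =>
    rw [pow_succ' (A * B), ← ih, pow_succ' (B * A)]
    simp only [mul_assoc]

lemma alt_odd {M : Type} [Monoid M] (A B : M) (m : ℕ) :
    alt B A (2 * m + 1) * B = (A * B) ^ (m + 1) := by
  have h2 : Even (2 * m) := by simp
  simp only [alt, if_pos h2]
  rw [alt_even, pow_shift]

lemma mk_o (x : V4) : mk o.1 x = x 3 := by
  simp [mk, o]

end SZOaux

open SZOaux in
theorem szo (h1 : T_ROO) (h2 : T_DIH) (h3 : T_SGL) : T_SZO := by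
  intro a b σ hyp hσ m k hm hma heq
  obtain ⟨hc, hu, hmk⟩ := h1 a b hyp
  have ha2 : 2 ≤ a := hyp.1
  have haR : (0 : ℝ) < a := by
    have : (2 : ℝ) ≤ a := by exact_mod_cast ha2
    linarith
  set G : Module.End ℝ V4 := σ ((sm a b 0 * sm a b 1) ^ m) with hG
  have hGe : G = (refl (al a b 0) * refl (al a b 1)) ^ m := by
    rw [hG, map_pow, map_mul, hσ 0, hσ 1]
  -- `G` fixes the base point
  have hfix : G o.1 = o.1 := by
    rw [hG, heq, map_pow, map_mul, hσ 1, hσ 2]
    have hone : (refl (al a b 1) * refl (al a b 2)) o.1 = o.1 := by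
      have e2 : refl (al a b 2) o.1 = o.1 := by
        ext i; simp [refl, mk, al, o]
      have e1 : refl (al a b 1) o.1 = o.1 := by
        ext i; simp [refl, mk, al, o]
      rw [Module.End.mul_apply, e2, e1]
    have : ∀ n : ℕ, ((refl (al a b 1) * refl (al a b 2)) ^ n) o.1 = o.1 := by
      intro n
      induction n with
      | zero => simp
      | succ n ih => rw [pow_succ, Module.End.mul_apply, hone, ih]
    exact this k
  have hLor := (h3 a b σ hyp hσ ((sm a b 0 * sm a b 1) ^ m)).1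
  have hmkG : ∀ x, mk o.1 (G x) = mk o.1 x := by
    intro x
    conv_lhs => rw [← hfix]
    exact hLor.1 _ _
  have h01 : mk (al a b 0) (al a b 1) = Real.cos (Real.pi / (2 * a : ℕ)) := by
    rw [hmk 0 1 (by decide)]
    rfl
  have h10 : mk (al a b 1) (al a b 0) = Real.cos (Real.pi / (2 * a : ℕ)) := by
    rw [hmk 1 0 (by decide)]
    rfl
  have hs0 : mk o.1 (al a b 0) ≠ 0 := by
    rw [mk_o]
    simp only [al, Matrix.cons_val]
    rw [neg_ne_zero]
    refine (Real.sqrt_pos.mpr ?_).ne'
    nlinarith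
  have hs1 : mk o.1 (al a b 1) = 0 := by
    rw [mk_o]
    simp [al]
  have hθ : 0 < Real.sin (Real.pi / (2 * a : ℕ)) := by
    refine Real.sin_pos_of_pos_of_lt_pi (by positivity) ?_
    have : (1 : ℝ) < (2 * a : ℕ) := by
      have : 1 < 2 * a := by omega
      exact_mod_cast this
    rw [div_lt_iff₀ (by positivity)]
    nlinarith [Real.pi_pos]
  -- first coefficient
  have hA := h2 (al a b 0) (al a b 1) (2 * a) (by omega) (hu 0) (hu 1) h01 (2 * m)
  have hev : Even (2 * m) := by simp
  rw [alt_even, ← hGe] at hA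
  simp only [if_pos hev] at hA
  have hA' := congrArg (mk o.1) hA
  rw [hmkG] at hA'
  have mk_add : ∀ (s t : ℝ) (x y : V4), mk o.1 (s • x + t • y) = s * mk o.1 x + t * mk o.1 y := by
    intro s t x y
    simp only [mk_o]
    simp
  rw [mk_add, hs1, mul_zero, add_zero] at hA'
  have hU1 : Real.sin ((2 * m + 1 : ℕ) * Real.pi / (2 * a : ℕ)) / Real.sin (Real.pi / (2 * a : ℕ))
      = 1 := by
    have : (Real.sin ((2 * m + 1 : ℕ) * Real.pi / (2 * a : ℕ)) /
        Real.sin (Real.pi / (2 * a : ℕ)) - 1) * mk o.1 (al a b 0) = 0 := by linarith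
    rcases mul_eq_zero.mp this with h | h
    · linarith
    · exact absurd h hs0
  -- second coefficient
  obtain ⟨m', rfl⟩ : ∃ m', m = m' + 1 := ⟨m - 1, by omega⟩
  have hB := h2 (al a b 1) (al a b 0) (2 * a) (by omega) (hu 1) (hu 0) h10 (2 * m' + 1)
  have hodd : ¬ Even (2 * m' + 1) := by simp
  simp only [if_neg hodd] at hB
  have hrefl : refl (al a b 1) (al a b 1) = -al a b 1 := by
    ext i
    simp only [refl, LinearMap.coe_mk, AddHom.coe_mk, hu 1, Pi.neg_apply]
    ring
  have hG1 : G (al a b 1) =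
      -((alt (M := Module.End ℝ V4) (refl (al a b 1)) (refl (al a b 0)) (2 * m' + 1))
        (al a b 1)) := by
    rw [hGe, ← alt_odd, Module.End.mul_apply, hrefl, map_neg]
  rw [hB] at hG1
  have hB' := congrArg (mk o.1) hG1
  rw [hmkG, hs1] at hB'
  have mk_neg : ∀ x : V4, mk o.1 (-x) = -mk o.1 x := by
    intro x; simp only [mk_o]; rfl
  rw [mk_neg, mk_add, hs1, mul_zero, zero_add] at hB'
  have hU2 : Real.sin ((2 * m' + 1 + 1 : ℕ) * Real.pi / (2 * a : ℕ)) = 0 := by
    have : Real.sin ((2 * m' + 1 + 1 : ℕ) * Real.pi / (2 * a : ℕ)) /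
        Real.sin (Real.pi / (2 * a : ℕ)) * mk o.1 (al a b 0) = 0 := by linarith
    rcases mul_eq_zero.mp this with h | h
    · rcases div_eq_zero_iff.mp h with h | h
      · exact h
      · exact absurd h hθ.ne'
    · exact absurd h hs0
  -- so `m = a`
  have hma' : m' + 1 = a := by
    obtain ⟨j, hj⟩ := Real.sin_eq_zero_iff.mp hU2
    have h4 : (j : ℝ) * (2 * a : ℕ) = (2 * m' + 1 + 1 : ℕ) := by
      have h5 : ((2 * a : ℕ) : ℝ) ≠ 0 := by positivity
      field_simp at hj
      have : (j : ℝ) * ((2 * a : ℕ) : ℝ) = ((2 * m' + 1 + 1 : ℕ) : ℝ) := by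
        nlinarith [Real.pi_pos, Real.pi_ne_zero]
      exact this
    have h6 : j * (2 * a : ℤ) = 2 * m' + 1 + 1 := by exact_mod_cast h4
    have h7 : 0 < j := by
      by_contra hneg
      push Not at hneg
      have : j * (2 * a : ℤ) ≤ 0 := mul_nonpos_of_nonpos_of_nonneg hneg (by positivity)
      omega
    have h8 : j < 2 := by
      by_contra hge
      push Not at hge
      have : 2 * (2 * a : ℤ) ≤ j * (2 * a : ℤ) := by gcongr
      omega
    have h9 : j = 1 := by omega
    subst h9
    omega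
  have hsin : Real.sin ((2 * (m' + 1) + 1 : ℕ) * Real.pi / (2 * a : ℕ)) =
      -Real.sin (Real.pi / (2 * a : ℕ)) := by
    have : ((2 * (m' + 1) + 1 : ℕ) : ℝ) * Real.pi / (2 * a : ℕ) =
        Real.pi / (2 * a : ℕ) + Real.pi := by
      rw [hma']
      have h5 : ((a : ℕ) : ℝ) ≠ 0 := haR.ne'
      push_cast
      field_simp
      ring
    rw [this, Real.sin_add_pi]
  rw [hsin, neg_div, div_self hθ.ne'] at hU1
  norm_num at hU1

end Pool.Agent.H57.CP
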