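import Pool.Agent.H57.CP.Targets

/-!
# MP_397744_co: module XCH (chirality of explicit groups)
-/

namespace Pool.Agent.H57.CP

namespace XCHaux

lemma mk_add_right (x y z : V4) : mk x (y + z) = mk x y + mk x z := by simp [mk]; ring
lemma mk_smul_right (c : ℝ) (x y : V4) : mk x (c • y) = c * mk x y := by simp [mk]; ring
lemma mk_smul_left (c : ℝ) (x y : V4) : mk (c • x) y = c * mk x y := by simp [mk]; ring

/-- the image of the base point under the half-turn -/
lemma ht_o {a b : V4} (hN : Num a b) : ht a b o.1 = ![2 * a 3 * a 0, 0, 2 * a 3 * a 2, 2 * a 3 ^ 2 - 1] := by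
  have h1 : mk a o.1 = a 3 := by simp [mk, o]
  have h2 : mk b o.1 = 0 := by simp [mk, o, hN.b3]
  ext i
  simp only [ht, LinearMap.coe_mk, AddHom.coe_mk, h1, h2]
  fin_cases i
  · simp [o]
  · simp [o, hN.a1]
  · simp [o]
  · simp [o]; ring

lemma pt_eq {a b : V4} (hN : Num a b) {T : Equiv.Perm H3} (hT : Ext (ht a b) T) :
    T o = pt (2 * a 3 * a 0) 0 (2 * a 3 * a 2) := by
  apply Subtype.ext
  rw [← hT o, ht_o hN]
  have haa := hN.aa
  simp only [mk, hN.a1] at haa
  have h3 := hN.a3
  have hsq : Real.sqrt (1 + (2 * a 3 * a 0) ^ 2 + (0 : ℝ) ^ 2 + (2 * a 3 * a 2) ^ 2) =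
      2 * a 3 ^ 2 - 1 := by
    have h4 : 1 + (2 * a 3 * a 0) ^ 2 + (0 : ℝ) ^ 2 + (2 * a 3 * a 2) ^ 2 =
        (2 * a 3 ^ 2 - 1) ^ 2 := by
      have h5 : a 0 ^ 2 + a 2 ^ 2 = a 3 ^ 2 - 1 := by nlinarith
      have : 1 + (2 * a 3 * a 0) ^ 2 + (0 : ℝ) ^ 2 + (2 * a 3 * a 2) ^ 2 =
        1 + 4 * a 3 ^ 2 * (a 0 ^ 2 + a 2 ^ 2) := by ring
      rw [this, h5]; ring
    rw [h4, Real.sqrt_sq]
    nlinarith [sq_nonneg (a 0), sq_nonneg (a 2)]
  show _ = ![2 * a 3 * a 0, 0, 2 * a 3 * a 2, Real.sqrt (1 + (2 * a 3 * a 0) ^ 2 + (0 : ℝ) ^ 2 + (2 * a 3 * a 2) ^ 2)]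
  rw [hsq]

end XCHaux

open XCHaux in
theorem xch (h1 : T_EXT) (h2 : T_SPN) (h3 : T_SPF) (_h4 : T_LOR) : T_XCH := by
  intro S T t d a b hN hd hs eS eT
  have hTo := pt_eq hN eT
  have hx : 2 * a 3 * a 0 ≠ 0 := mul_ne_zero (mul_ne_zero two_ne_zero hN.a3.ne') hN.a0
  have hz : 2 * a 3 * a 2 ≠ 0 := mul_ne_zero (mul_ne_zero two_ne_zero hN.a3.ne') hN.a2
  have hd2 : d * d = 1 := by rcases hd with h | h <;> rw [h] <;> norm_num
  refine ⟨?_, ?_, ?_⟩
  · rintro ⟨R, hR, Ro, RT, hRS, hRT⟩
    obtain ⟨A, hA, eA⟩ := h1 R hR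
    have hinv : ∀ x : V4, rot (-t) d (rot t d x) = x := by
      intro x
      have hcs := Real.sin_sq_add_cos_sq t
      ext i
      fin_cases i
      · simp [rot, Real.cos_neg, Real.sin_neg]; linear_combination (x 0) * hcs
      · simp [rot, Real.cos_neg, Real.sin_neg]; linear_combination (x 1) * hcs
      · simp [rot]; linear_combination (x 2) * hd2
      · simp [rot]
    have hAB : A.comp (rot t d) = (rot (-t) d).comp A := by
      refine h2 _ _ fun x => ?_
      rw [LinearMap.comp_apply, LinearMap.comp_apply, eS x, eA (S x), eA x]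
      have e1 : R (S x) = S⁻¹ (R x) := by
        have := congrArg (fun g : Equiv.Perm H3 => g x) hRS
        simpa using this
      have e2 : rot t d (S⁻¹ (R x)).1 = (R x).1 := by
        rw [eS]; simp
      rw [e1, ← e2, hinv]
    have hAC : A.comp (ht a b) = (ht a b).comp A := by
      refine h2 _ _ fun x => ?_
      rw [LinearMap.comp_apply, LinearMap.comp_apply, eT x, eA (T x), eA x, eT (R x)]
      have e1 : R (T x) = T (R x) := by
        have := congrArg (fun g : Equiv.Perm H3 => g x) hRT
        simpa using this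
      rw [e1]
    have hAo : A o.1 = o.1 := by rw [eA, Ro]
    have hATo : A (ht a b o.1) = ht a b o.1 := by rw [eT o, eA, RT]
    -- the vectors of the basis
    set e0 : V4 := ![1, 0, 0, 0] with he0
    set e1 : V4 := ![0, 1, 0, 0] with he1
    set e2 : V4 := ![0, 0, 1, 0] with he2
    have hto : ht a b o.1 = -o.1 + (2 * a 3) • a := by
      rw [ht_o hN]
      ext i
      fin_cases i
      · simp [o]
      · simp [o, hN.a1]
      · simp [o]
      · simp [o]; ring
    have hAa : A a = a := by
      rw [hto, map_add, map_neg, hAo, map_smul] at hATo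
      have h5 : (2 * a 3) • A a = (2 * a 3) • a := by
        have := add_left_cancel hATo
        exact this
      have h6 : (2 * a 3) ≠ 0 := mul_ne_zero two_ne_zero hN.a3.ne'
      exact smul_right_injective V4 h6 h5
    -- `A e2 = e2`
    have hcd : d - Real.cos t ≠ 0 := by
      intro h
      have h5 : Real.cos t = d := by linarith
      have h6 := Real.sin_sq_add_cos_sq t
      rw [h5, pow_two d, hd2] at h6
      have : Real.sin t ^ 2 = 0 := by linarith
      exact hs (pow_eq_zero_iff (two_ne_zero) |>.mp this)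
    have hy : rot (-t) d (A e2) = d • A e2 := by
      have h5 := congrArg (fun f : V4 →ₗ[ℝ] V4 => f e2) hAB
      simp only [LinearMap.comp_apply] at h5
      rw [← h5, ← map_smul]
      congr 1
      ext i
      fin_cases i <;> simp [rot, he2]
    set y : V4 := A e2 with hydef
    have hy0 := congrFun hy 0
    have hy1 := congrFun hy 1
    simp [rot, Real.cos_neg, Real.sin_neg] at hy0 hy1
    have h01 : y 0 ^ 2 + y 1 ^ 2 = 0 := by
      have : (d - Real.cos t) * (y 0 ^ 2 + y 1 ^ 2) = 0 := by
        linear_combination -(y 0) * hy0 - (y 1) * hy1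
      rcases mul_eq_zero.mp this with h | h
      · exact absurd h hcd
      · exact h
    have y0 : y 0 = 0 := by nlinarith [sq_nonneg (y 0), sq_nonneg (y 1)]
    have y1 : y 1 = 0 := by nlinarith [sq_nonneg (y 0), sq_nonneg (y 1)]
    have y3 : y 3 = 0 := by
      have h5 := hA.1 o.1 e2
      rw [hAo] at h5
      simpa [mk, o, he2] using h5
    have yy : y 2 ^ 2 = 1 := by
      have h5 := hA.1 e2 e2
      rw [← hydef] at h5
      simp only [mk, y0, y1, y3, he2, Matrix.cons_val] at h5
      nlinarith
    have y2 : y 2 = 1 := by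
      have h5 := hA.1 e2 a
      rw [← hydef, hAa] at h5
      simp only [mk, y0, y1, y3, he2, Matrix.cons_val] at h5
      have h6 : (y 2 - 1) * a 2 = 0 := by linarith
      rcases mul_eq_zero.mp h6 with h | h
      · linarith
      · exact absurd h hN.a2
    have hAe2 : A e2 = e2 := by
      rw [← hydef]
      ext i
      fin_cases i
      · simp [y0, he2]
      · simp [y1, he2]
      · simp [y2, he2]
      · simp [y3, he2]
    -- `A b = b`
    have hAb : A b = b := by
      have h5 := congrArg (fun f : V4 →ₗ[ℝ] V4 => f b) hAC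
      simp only [LinearMap.comp_apply] at h5
      have hCb : ht a b b = b := by
        ext i
        simp only [ht, LinearMap.coe_mk, AddHom.coe_mk, hN.ab, hN.bb]
        ring
      rw [hCb] at h5
      have hab : mk a (A b) = 0 := by
        have := hA.1 a b
        rw [hAa, hN.ab] at this
        exact this
      set w : V4 := A b with hw
      have hwb : w = (-mk b w) • b := by
        ext i
        have h6 := congrFun h5 i
        simp only [ht, LinearMap.coe_mk, AddHom.coe_mk, hab] at h6
        simp only [Pi.smul_apply, smul_eq_mul]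
        linarith
      set β : ℝ := -mk b w with hβ
      have h7 := hA.1 e2 b
      rw [hAe2, ← hw, hwb, mk_smul_right] at h7
      have h8 : mk e2 b = - b 2 := by simp [mk, he2]
      rw [h8] at h7
      have h9 : (β - 1) * b 2 = 0 := by linarith
      have h10 : β = 1 := by
        rcases mul_eq_zero.mp h9 with h | h
        · linarith
        · exact absurd h hN.b2
      rw [hwb, h10, one_smul]
    have hao : a = a 0 • e0 + (a 2 • e2 + a 3 • o.1) := by
      ext i
      fin_cases i
      · simp [he0, he2, o]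
      · simp [he0, he2, o, hN.a1]
      · simp [he0, he2, o]
      · simp [he0, he2, o]
    have hAe0 : A e0 = e0 := by
      have h5 : A (a 0 • e0 + (a 2 • e2 + a 3 • o.1)) = a 0 • e0 + (a 2 • e2 + a 3 • o.1) := by
        rw [← hao]; exact hAa
      rw [map_add, map_smul, map_add, map_smul, map_smul, hAe2, hAo] at h5
      exact smul_right_injective V4 hN.a0 (add_right_cancel h5)
    have hbo : b = b 1 • e1 + (b 0 • e0 + b 2 • e2) := by
      ext i
      fin_cases i
      · simp [he0, he1, he2]
      · simp [he0, he1, he2]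
      · simp [he0, he1, he2]
      · simp [he0, he1, he2, hN.b3]
    have hAe1 : A e1 = e1 := by
      have h5 : A (b 1 • e1 + (b 0 • e0 + b 2 • e2)) = b 1 • e1 + (b 0 • e0 + b 2 • e2) := by
        rw [← hbo]; exact hAb
      rw [map_add, map_smul, map_add, map_smul, map_smul, hAe2, hAe0] at h5
      exact smul_right_injective V4 hN.b1 (add_right_cancel h5)
    -- contradiction
    have h5 := congrArg (fun f : V4 →ₗ[ℝ] V4 => f e0) hAB
    simp only [LinearMap.comp_apply] at h5
    rw [hAe0] at h5
    have h6 : rot t d e0 = Real.cos t • e0 + Real.sin t • e1 := by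
      ext i
      fin_cases i <;> simp [rot, he0, he1]
    rw [h6, map_add, map_smul, map_smul, hAe0, hAe1] at h5
    have h7 := congrFun h5 1
    simp [rot, he0, he1, Real.sin_neg] at h7
    exact hs (by linarith)
  · intro g hg hfix
    have memo : ∀ f ∈ Gr S T, g (f o) = f o := fun f hf => hfix _ ⟨f, hf, rfl⟩
    have hSm : S ∈ Gr S T := Subgroup.subset_closure (by simp)
    have hTm : T ∈ Gr S T := Subgroup.subset_closure (by simp)
    have m1 := memo 1 (one_mem _)
    have m2 := memo T hTm
    have m3 := memo (S * T) (mul_mem hSm hTm)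
    have m4 := memo (S⁻¹ * T) (mul_mem (inv_mem hSm) hTm)
    rw [Equiv.Perm.mul_apply] at m3 m4
    rw [hTo] at m2 m3 m4
    exact h3 S g t d _ _ hd hx hs hz eS hg m1 m2 m3 m4
  · unfold ch
    rw [← eT o, ht_o hN]
    simp [mk, o]

end Pool.Agent.H57.CP
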