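import Pool.Agent.H57.CP.Targets

/-!
# MP_397744_co: common part of the modules PIN and FIN
-/

namespace Pool.Agent.H57.CP

/-- the polyhedron of an explicit group -/
lemma exists_K (hXCH : T_XCH) (hEC : T_EC) (hED : T_ED) (hEE : T_EE) (hEF : T_EF) (hEG : T_EG)
    {S T : Equiv.Perm H3} {t d : ℝ} {a b : V4} {q : ℕ} {p : ℕ∞} (gen : Gen o (T o) S T q)
    (num : Num a b) (hd : d = 1 ∨ d = -1) (hs : Real.sin t ≠ 0) (eS : Ext (rot t d) S)
    (eT : Ext (ht a b) T)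
    (hp : {x | ∃ k : ℤ, x = ((T * S⁻¹) ^ k : Equiv.Perm H3) o}.encard = p) :
    ∃ K, IsGeo K ∧ Chi K ∧ Ty K p q ∧ EdgeLen K (2 * a 3 ^ 2 - 1) := by
  obtain ⟨c1, c2, c3, c4, c5, c6, c7⟩ := hEC o (T o) S T q gen
  obtain ⟨d1, d2, d3⟩ := hED o (T o) S T q gen
  have geo : IsGeo (Kst o (T o) S T) := ⟨c1, c2, c3, c4, c5, c6, d1, d2, d3, c7⟩
  obtain ⟨x1, x2, x3⟩ := hXCH S T t d a b num hd hs eS eT
  obtain ⟨ty, el⟩ := hEE o (T o) S T q p gen hp
  obtain ⟨Φ0, Φ1, Φ02, Φ12, rd⟩ := hEF o (T o) S T q gen geo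
  refine ⟨Kst o (T o) S T, geo, ?_, ty, ?_⟩
  · refine hEG _ _ _ _ _ _ _ S T geo rd ?_ x2
    rintro ⟨R, hR, e, hRS, hRT⟩
    have e1 : R o = o := congrArg Prod.fst e
    have e2 : R '' {o, T o} = {o, T o} := congrArg (fun Φ : Fg => Φ.2.1) e
    have e3 : R (T o) = T o := by
      have h1 : R (T o) ∈ ({o, T o} : Set H3) := by
        rw [← e2]
        exact Set.mem_image_of_mem _ (by simp)
      rcases h1 with h1 | h1
      · exfalso
        apply gen.ne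
        have : R o = R (T o) := by rw [h1, e1]
        exact R.injective this
      · exact h1
    exact x1 ⟨R, hR, e1, e3, hRS, hRT⟩
  · rw [← x3]; exact el

end Pool.Agent.H57.CP
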