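import Pool.Agent.H78.CP.Common

/-!
# MP_397744_co: module FIN (types with finite faces)
-/

namespace Pool.Agent.H57.CP

theorem fin' (hGFN : T_GFN) (hXCH : T_XCH) (_hEA : T_EA) (_hEB : T_EB) (hEC : T_EC) (hED : T_ED)
    (hEE : T_EE) (hEF : T_EF) (hEG : T_EG) (hORD : T_ORD) (hSSQ : T_SSQ) (hLOR : T_LOR)
    (hMKI : T_MKI) : T_FIN := by
  intro a b hyp
  have ha2 : 2 ≤ a := hyp.1
  have hb2 : 2 ≤ b := hyp.2.1
  obtain ⟨s1, -, -, s4, s5⟩ := hSSQ a b hyp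
  obtain ⟨δ₀, hδ₀, hG⟩ := hGFN a b hyp
  have hpi := Real.pi_pos
  set δ := min δ₀ (Real.pi / 2) with hδ
  have hδpos : 0 < δ := lt_min hδ₀ (by positivity)
  have hδ1 : δ ≤ δ₀ := min_le_left _ _
  have hδ2 : δ ≤ Real.pi / 2 := min_le_right _ _
  obtain ⟨u, hu⟩ : ∃ u : ℝ, u = δ / 2 := ⟨_, rfl⟩
  have hupos : 0 < u := by rw [hu]; positivity
  have hulim : |u| < δ := by rw [abs_of_pos hupos]; linarith
  obtain ⟨w1, hw1⟩ : ∃ w1 : ℝ, w1 = δ / 2 := ⟨_, rfl⟩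
  obtain ⟨w2, hw2⟩ : ∃ w2 : ℝ, w2 = 3 * δ / 4 := ⟨_, rfl⟩
  have hw12 : w1 < w2 := by rw [hw1, hw2]; linarith
  obtain ⟨g, hg⟩ : ∃ g : ℝ → ℝ → ℝ, g = Ssq a b := ⟨_, rfl⟩
  rw [← hg] at s1 s4 s5
  obtain ⟨f, hfdef⟩ : ∃ f : ℝ → ℝ, f = fun w => 1 + 2 * g u w := ⟨_, rfl⟩
  have hf : Continuous f := by
    have h0 : Continuous fun w : ℝ => ((u, w) : ℝ × ℝ) := by fun_prop
    have h1 : Continuous fun w : ℝ => g u w := s1.comp h0
    rw [hfdef]
    exact continuous_const.add (continuous_const.mul h1)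
  have hfw : f w2 < f w1 := by
    have := s5 u w1 w2 (by linarith) (by rw [hw1]; positivity) hw12 (by rw [hw2]; linarith)
    rw [hfdef]
    show 1 + 2 * g u w2 < 1 + 2 * g u w1
    linarith
  have hbR : (2 : ℝ) ≤ b := by exact_mod_cast hb2
  have hsin : Real.sin (Real.pi / b) ≠ 0 := by
    refine (Real.sin_pos_of_pos_of_lt_pi (by positivity) ?_).ne'
    exact div_lt_self hpi (by linarith)
  refine ⟨f w2, f w1, ?_, hfw, ?_⟩
  · have hw2p : 0 < w2 := by rw [hw2]; positivity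
    have h1 := (hG u w2 (by linarith) (by rw [abs_of_pos hw2p, hw2]; linarith)).1
    rw [← hg] at h1
    rw [hfdef]
    show 1 < 1 + 2 * g u w2
    linarith
  intro L hL
  obtain ⟨w, ⟨hwa, hwb⟩, hw⟩ := intermediate_value_Ioo' hw12.le hf.continuousOn hL
  have hwpos : 0 < w := by rw [hw1] at hwa; linarith
  have hwlt : w < δ := by rw [hw2] at hwb; linarith
  obtain ⟨g1, g2⟩ := hG u w (by linarith) (by rw [abs_of_pos hwpos]; linarith)
  obtain ⟨maa, mbb, mab⟩ := s4 u w (by rw [hg]; exact g1)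
  have hsq : 0 < Real.sqrt (Ssq a b u w) := Real.sqrt_pos.mpr g1
  have hcu : 0 < Real.cos u := Real.cos_pos_of_mem_Ioo ⟨by linarith, by rw [hu]; linarith⟩
  have hsu : 0 < Real.sin u := Real.sin_pos_of_pos_of_lt_pi hupos (by rw [hu]; linarith)
  have hcw : 0 < Real.cos w := Real.cos_pos_of_mem_Ioo ⟨by linarith, by linarith⟩
  have hsw : 0 < Real.sin w := Real.sin_pos_of_pos_of_lt_pi hwpos (by linarith)
  have num : Num (aV a b u w) (bV u w) := by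
    refine ⟨maa, mbb, mab, ?_, ?_, ?_, ?_, ?_, ?_, ?_⟩
    · simp [bV]
    · simp [aV]
    · simp only [aV, Matrix.cons_val]
      exact Real.sqrt_pos.mpr (by linarith)
    · simp only [aV, Matrix.cons_val]; positivity
    · simp only [aV, Matrix.cons_val]; positivity
    · simp only [bV, Matrix.cons_val]; positivity
    · simp only [bV, Matrix.cons_val]; positivity
  obtain ⟨S, -, eS⟩ := hMKI _ (hLOR.1 (Real.pi / b) (-1) (Or.inr rfl))
  obtain ⟨T, -, eT⟩ := hMKI _ (hLOR.2.1 _ _ num.aa num.bb num.ab).1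
  obtain ⟨gen, hp1, hp2⟩ := g2 S T eS eT
  have hp : {x | ∃ k : ℤ, x = ((T * S⁻¹) ^ k : Equiv.Perm H3) o}.encard = (2 * a : ℕ) :=
    ((hORD (T * S⁻¹) o).1 (2 * a) (by omega)).mpr ⟨by rw [hp1]; rfl, hp2⟩
  obtain ⟨K, k1, k2, k3, k4⟩ :=
    exists_K hXCH hEC hED hEE hEF hEG gen num (Or.inr rfl) hsin eS eT hp
  refine ⟨K, k1, k2, k3, ?_⟩
  have hLeq : 2 * (aV a b u w) 3 ^ 2 - 1 = L := by
    rw [← hw, hfdef, hg]
    simp only [aV, Matrix.cons_val]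
    rw [Real.sq_sqrt (by linarith)]
    ring
  rwa [hLeq] at k4

end Pool.Agent.H57.CP
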