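import Pool.Agent.H78.CP.Common

/-!
# MP_397744_co: module PIN (types with infinite faces)
-/

namespace Pool.Agent.H57.CP

theorem pin (hINF : T_INF) (hXCH : T_XCH) (_hEA : T_EA) (_hEB : T_EB) (hEC : T_EC) (hED : T_ED)
    (hEE : T_EE) (hEF : T_EF) (hEG : T_EG) (hORD : T_ORD) (hLOR : T_LOR) (hMKI : T_MKI) :
    T_PIN := by
  intro q hq
  have hqR : (3 : ℝ) ≤ q := by exact_mod_cast hq
  have hq0 : (0 : ℝ) < q := by linarith
  have hσ : 0 < Real.sin (Real.pi / q) := by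
    refine Real.sin_pos_of_pos_of_lt_pi (by positivity) ?_
    rw [div_lt_iff₀ hq0]
    nlinarith [Real.pi_pos]
  have hσ1 : Real.sin (Real.pi / q) ≤ 1 := Real.sin_le_one _
  set σ := Real.sin (Real.pi / q) with hσdef
  have hσ2 : σ ^ 2 ≤ 1 := by nlinarith
  have hσ2p : 0 < σ ^ 2 := by positivity
  have hs2 : Real.sin (2 * Real.pi / q) ≠ 0 := by
    refine (Real.sin_pos_of_pos_of_lt_pi (by positivity) ?_).ne'
    rw [div_lt_iff₀ hq0]
    nlinarith [Real.pi_pos]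
  refine ⟨4 / σ ^ 2 - 1, ?_, ?_⟩
  · have : 4 ≤ 4 / σ ^ 2 := by
      rw [le_div_iff₀ hσ2p]; nlinarith
    linarith
  intro L hL
  have hL4 : 4 < (L + 1) * σ ^ 2 := by
    have : 4 / σ ^ 2 < L + 1 := by linarith
    rwa [div_lt_iff₀ hσ2p] at this
  have hL1 : 4 < L + 1 := by nlinarith
  set c := Real.sqrt ((L + 1) / 2) with hc
  have hc2 : c ^ 2 = (L + 1) / 2 := Real.sq_sqrt (by linarith)
  have hcpos : 0 < c := Real.sqrt_pos.mpr (by linarith)
  set s := Real.sqrt (c ^ 2 - 1) with hsd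
  have hs2' : s ^ 2 = c ^ 2 - 1 := Real.sq_sqrt (by rw [hc2]; linarith)
  have hspos : 0 < s := Real.sqrt_pos.mpr (by rw [hc2]; linarith)
  have h2 : Real.sqrt 2 ^ 2 = 2 := Real.sq_sqrt (by norm_num)
  have h2pos : 0 < Real.sqrt 2 := Real.sqrt_pos.mpr (by norm_num)
  have hr : (s / Real.sqrt 2) ^ 2 = s ^ 2 / 2 := by rw [div_pow, h2]
  let a : V4 := ![s / Real.sqrt 2, 0, s / Real.sqrt 2, c]
  let b : V4 := ![-1 / 2, Real.sqrt 2 / 2, 1 / 2, 0]
  have num : Num a b := by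
    refine ⟨?_, ?_, ?_, ?_, ?_, ?_, ?_, ?_, ?_, ?_⟩
    · simp only [mk, a, Matrix.cons_val]
      nlinarith
    · simp only [mk, b, Matrix.cons_val]
      nlinarith
    · simp only [mk, a, b, Matrix.cons_val]
      ring
    · simp [b]
    · simp [a]
    · simpa [a] using hcpos
    · simp only [a, Matrix.cons_val]; positivity
    · simp only [a, Matrix.cons_val]; positivity
    · simp only [b, Matrix.cons_val]; positivity
    · simp only [b, Matrix.cons_val]; norm_num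
  obtain ⟨S, -, eS⟩ := hMKI _ (hLOR.1 (2 * Real.pi / q) 1 (Or.inl rfl))
  obtain ⟨T, -, eT⟩ := hMKI _ (hLOR.2.1 a b num.aa num.bb num.ab).1
  have hineq : Real.sqrt (a 0 ^ 2 + a 2 ^ 2) < a 3 * a 0 * Real.sin (Real.pi / q) := by
    have e1 : a 0 ^ 2 + a 2 ^ 2 = s ^ 2 := by
      simp only [a, Matrix.cons_val]; rw [hr]; ring
    rw [e1, Real.sqrt_sq hspos.le]
    simp only [a, Matrix.cons_val]
    rw [← hσdef]
    have h3 : Real.sqrt 2 < c * σ := by
      refine (Real.sqrt_lt' (by positivity)).mpr ?_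
      rw [mul_pow, hc2]
      linarith
    have h4 : c * (s / Real.sqrt 2) * σ = (c * σ) * s / Real.sqrt 2 := by ring
    rw [h4, lt_div_iff₀ h2pos]
    nlinarith
  obtain ⟨gen, hinf⟩ := hINF q a b S T hq num.aa num.bb num.ab num.b3 num.a1 num.a3
    (by simp only [a, Matrix.cons_val]; positivity) hineq eS eT
  have hp : {x | ∃ k : ℤ, x = ((T * S⁻¹) ^ k : Equiv.Perm H3) o}.encard = ⊤ :=
    (hORD (T * S⁻¹) o).2.1.mpr hinf
  obtain ⟨K, k1, k2, k3, k4⟩ := exists_K hXCH hEC hED hEE hEF hEG gen num (Or.inl rfl) hs2 eS eT hp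
  refine ⟨K, k1, k2, k3, ?_⟩
  have hLeq : 2 * a 3 ^ 2 - 1 = L := by
    simp only [a, Matrix.cons_val]; rw [hc2]; ring
  rwa [hLeq] at k4

end Pool.Agent.H57.CP
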